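import Pool.Agent.W8.ST.Stm

set_option autoImplicit false

/-!
Project ST, part NR: the Neumann multiplicities of the two quotients differ.
-/

open scoped ContDiff

namespace Pool.Agent.W261.ST

open Pool.Agent.W8.ST

noncomputable section

theorem line_deriv (u : V 4 → ℝ) (hu : Differentiable ℝ u) (p d : V 4) (s : ℝ) :
    HasDerivAt (fun s : ℝ => u (p + s • d)) (fderiv ℝ u (p + s • d) d) s := by
  have h1 : HasDerivAt (fun s : ℝ => p + s • d) d s := by
    have h2 : HasDerivAt (fun s : ℝ => s • d) ((1 : ℝ) • d) s := (hasDerivAt_id s).smul_const d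
    rw [one_smul] at h2
    exact h2.const_add p
  exact (hu (p + s • d)).hasFDerivAt.comp_hasDerivAt s h1

theorem fderiv_eq_sum (u : V 4 → ℝ) (y d : V 4) :
    fderiv ℝ u y d = ∑ i, d i * pd i u y := by
  have h : d = ∑ i, d i • (Pi.single i (1 : ℝ) : V 4) := by
    ext j
    simp [Finset.sum_apply, Pi.single_apply]
  conv_lhs => rw [h]
  rw [map_sum]
  refine Finset.sum_congr rfl fun i _ => ?_
  rw [map_smul]
  rfl

theorem pd_smooth (u : V 4 → ℝ) (hu : ContDiff ℝ ∞ u) (i : Fin 4) : ContDiff ℝ ∞ (pd i u) := by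
  unfold pd
  exact (hu.fderiv_right (m := ∞) (by exact_mod_cast le_top)).clm_apply contDiff_const

theorem smooth_diff (u : V 4 → ℝ) (hu : ContDiff ℝ ∞ u) : Differentiable ℝ u :=
  hu.differentiable (by simp)

theorem const_dir (u : V 4 → ℝ) (hu : Differentiable ℝ u)
    (H : ∀ x ∈ strip 3, pd 1 u x = 0 ∧ pd 2 u x = 0 ∧ pd 3 u x = 0) :
    ∀ x ∈ strip 3, u x = u ![x 0, 0, 0, 0] := by
  intro x hx
  have hd : ∀ s : ℝ, HasDerivAt (fun s : ℝ => u (![x 0, 0, 0, 0] + s • ![0, x 1, x 2, x 3])) 0 s := by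
    intro s
    have h1 := line_deriv u hu ![x 0, 0, 0, 0] ![0, x 1, x 2, x 3] s
    rw [fderiv_eq_sum] at h1
    have hmem : (![x 0, 0, 0, 0] + s • ![0, x 1, x 2, x 3] : V 4) ∈ strip 3 := by
      have : |x 0| ≤ 1 := hx
      simpa [strip] using this
    obtain ⟨a, b, c⟩ := H _ hmem
    rw [Fin.sum_univ_four, a, b, c] at h1
    simpa using h1
  have h2 : u (![x 0, 0, 0, 0] + (1 : ℝ) • ![0, x 1, x 2, x 3]) =
      u (![x 0, 0, 0, 0] + (0 : ℝ) • ![0, x 1, x 2, x 3]) :=
    is_const_of_deriv_eq_zero (f := fun s : ℝ => u (![x 0, 0, 0, 0] + s • ![0, x 1, x 2, x 3]))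
      (fun s => (hd s).differentiableAt) (fun s => (hd s).deriv) 1 0
  have e1 : (![x 0, 0, 0, 0] + (1 : ℝ) • ![0, x 1, x 2, x 3] : V 4) = x := by
    ext i
    fin_cases i <;> simp
  have e0 : (![x 0, 0, 0, 0] + (0 : ℝ) • ![0, x 1, x 2, x 3] : V 4) = ![x 0, 0, 0, 0] := by
    simp
  rw [e1, e0] at h2
  exact h2

theorem pt_deriv (t : ℝ) :
    HasDerivAt (fun t : ℝ => (![t, 0, 0, 0] : V 4)) (Pi.single 0 1) t := by
  rw [hasDerivAt_pi]
  intro i
  fin_cases i
  · simpa using hasDerivAt_id' t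
  · simpa using hasDerivAt_const t (0 : ℝ)
  · simpa using hasDerivAt_const t (0 : ℝ)
  · simpa using hasDerivAt_const t (0 : ℝ)

theorem along (u : V 4 → ℝ) (hu : Differentiable ℝ u) (t : ℝ) :
    HasDerivAt (fun t : ℝ => u ![t, 0, 0, 0]) (pd 0 u ![t, 0, 0, 0]) t :=
  (hu ![t, 0, 0, 0]).hasFDerivAt.comp_hasDerivAt t (pt_deriv t)

theorem pd_zero_of (u : V 4 → ℝ) (hu : Differentiable ℝ u) (h : ∀ x ∈ strip 3, u x = 0)
    (i : Fin 4) (hi : i ≠ 0) : ∀ x ∈ strip 3, pd i u x = 0 := by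
  intro x hx
  have h1 := line_deriv u hu x (Pi.single i 1) 0
  have h2 : (fun s : ℝ => u (x + s • (Pi.single i (1 : ℝ) : V 4))) = fun _ => 0 := by
    ext s
    apply h
    have : |x 0| ≤ 1 := hx
    have h3 : (x + s • (Pi.single i (1 : ℝ) : V 4)) 0 = x 0 := by
      simp [hi.symm]
    show |(x + s • (Pi.single i (1 : ℝ) : V 4)) 0| ≤ 1
    rw [h3]
    exact this
  rw [h2] at h1
  have h4 := h1.unique (hasDerivAt_const (0 : ℝ) (0 : ℝ))
  simpa [pd] using h4

theorem pt_mem {t : ℝ} (ht : t ∈ Set.Icc (-1 : ℝ) 1) : (![t, 0, 0, 0] : V 4) ∈ strip 3 := by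
  have : |t| ≤ 1 := abs_le.2 ht
  simpa [strip] using this

/-- the profile of an invariant eigenfunction -/
def Prof (lam : ℝ) (v : strip 3 → ℝ) : Prop :=
  ∃ w : ℝ → ℝ, ContDiff ℝ 2 w ∧
    (∀ t ∈ Set.Icc (-1 : ℝ) 1, deriv (deriv w) t = (-(lam * q t)) * w t) ∧ deriv w (-1) = 0 ∧
    ∀ x : strip 3, v x = w ((x : V 4) 0)

theorem prof_gen (lam : ℝ) (u : V 4 → ℝ) (hs : Sol lam 0 u)
    (H : ∀ x ∈ strip 3, pd 1 u x = 0 ∧ pd 2 u x = 0 ∧ pd 3 u x = 0)
    (v : strip 3 → ℝ) (hv : ∀ x : strip 3, v x = u x) : Prof lam v := by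
  obtain ⟨hu, _, heq, hb⟩ := hs
  have hud := smooth_diff u hu
  refine ⟨fun t => u ![t, 0, 0, 0], ?_, ?_, ?_, ?_⟩
  · have h1 : ContDiff ℝ ∞ (fun t : ℝ => (![t, 0, 0, 0] : V 4)) := by
      rw [contDiff_pi]
      intro i
      fin_cases i
      · show ContDiff ℝ ∞ (fun t : ℝ => t)
        exact contDiff_id
      · simpa using contDiff_const
      · simpa using contDiff_const
      · simpa using contDiff_const
    exact_mod_cast contDiff_infty.1 (hu.comp h1) 2
  · intro t ht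
    have e1 : deriv (fun t : ℝ => u ![t, 0, 0, 0]) = fun t => pd 0 u ![t, 0, 0, 0] := by
      ext s
      exact (along u hud s).deriv
    rw [e1, (along (pd 0 u) (smooth_diff _ (pd_smooth u hu 0)) t).deriv]
    have h2 := heq _ (pt_mem ht)
    have h11 := pd_zero_of (pd 1 u) (smooth_diff _ (pd_smooth u hu 1)) (fun x hx => (H x hx).1) 1
      (by decide) _ (pt_mem ht)
    have h22 := pd_zero_of (pd 2 u) (smooth_diff _ (pd_smooth u hu 2)) (fun x hx => (H x hx).2.1) 2
      (by decide) _ (pt_mem ht)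
    have h33 := pd_zero_of (pd 3 u) (smooth_diff _ (pd_smooth u hu 3)) (fun x hx => (H x hx).2.2) 3
      (by decide) _ (pt_mem ht)
    rw [h11, h22, h33] at h2
    simp only [Matrix.cons_val_zero] at h2
    linarith
  · rw [(along u hud (-1)).deriv]
    have h2 := hb (![-1, 0, 0, 0] : V 4) (by simp)
    simp only [Matrix.cons_val_zero] at h2
    linarith
  · intro x
    rw [hv x]
    exact const_dir u hud H x x.2

theorem prof_span (lam : ℝ) (v : strip 3 → ℝ) (s : Set (strip 3 → ℝ)) (hs : ∀ v ∈ s, Prof lam v)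
    (hv : v ∈ Submodule.span ℝ s) : Prof lam v := by
  induction hv using Submodule.span_induction with
  | mem v hv => exact hs v hv
  | zero =>
    refine ⟨fun _ => 0, contDiff_const, ?_, ?_, ?_⟩
    · intro t _
      simp
    · simp
    · intro x
      rfl
  | add v v' _ _ h h' =>
    obtain ⟨w, hw, hw1, hw2, hw3⟩ := h
    obtain ⟨w', hw', hw1', hw2', hw3'⟩ := h'
    have d1 : Differentiable ℝ w := hw.differentiable (by norm_num)
    have d1' : Differentiable ℝ w' := hw'.differentiable (by norm_num)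
    have c1 : ContDiff ℝ 1 (deriv w) := by
      have h := (contDiff_succ_iff_deriv (n := 1)).1 (by simpa [one_add_one_eq_two] using hw)
      exact h.2.2
    have c1' : ContDiff ℝ 1 (deriv w') := by
      have h := (contDiff_succ_iff_deriv (n := 1)).1 (by simpa [one_add_one_eq_two] using hw')
      exact h.2.2
    have d2 : Differentiable ℝ (deriv w) := c1.differentiable (by norm_num)
    have d2' : Differentiable ℝ (deriv w') := c1'.differentiable (by norm_num)
    have e1 : deriv (fun t => w t + w' t) = fun t => deriv w t + deriv w' t := by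
      ext t
      exact deriv_add (d1 t) (d1' t)
    refine ⟨fun t => w t + w' t, hw.add hw', ?_, ?_, ?_⟩
    · intro t ht
      rw [e1]
      have e2 : deriv (fun t => deriv w t + deriv w' t) t = deriv (deriv w) t + deriv (deriv w') t :=
        deriv_add (d2 t) (d2' t)
      rw [e2, hw1 t ht, hw1' t ht]
      ring
    · rw [e1]
      simp only []
      rw [hw2, hw2', add_zero]
    · intro x
      show v x + v' x = _
      rw [hw3 x, hw3' x]
  | smul c v _ h =>
    obtain ⟨w, hw, hw1, hw2, hw3⟩ := h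
    have e1 : deriv (fun t => c * w t) = fun t => c * deriv w t := by
      ext t
      exact deriv_const_mul_field c
    refine ⟨fun t => c * w t, contDiff_const.mul hw, ?_, ?_, ?_⟩
    · intro t ht
      rw [e1]
      have e2 : deriv (fun t => c * deriv w t) t = c * deriv (deriv w) t := deriv_const_mul_field c
      rw [e2, hw1 t ht]
      ring
    · rw [e1]
      simp only []
      rw [hw2, mul_zero]
    · intro x
      show c * v x = _
      rw [hw3 x]

theorem pd_mul (φ c : ℝ → ℝ) (hφ : Differentiable ℝ φ) (hc : Differentiable ℝ c) (x : V 4)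
    (i : Fin 4) : pd i (fun y : V 4 => φ (y 0) * c (y 1)) x =
      φ (x 0) * (deriv c (x 1) * (Pi.single i (1 : ℝ) : V 4) 1) +
        c (x 1) * (deriv φ (x 0) * (Pi.single i (1 : ℝ) : V 4) 0) := by
  have h0 : HasFDerivAt (fun y : V 4 => y 0) (ContinuousLinearMap.proj (R := ℝ) (0 : Fin 4)) x :=
    (ContinuousLinearMap.proj (R := ℝ) (φ := fun _ : Fin 4 => ℝ) (0 : Fin 4)).hasFDerivAt
  have h1 : HasFDerivAt (fun y : V 4 => y 1) (ContinuousLinearMap.proj (R := ℝ) (1 : Fin 4)) x :=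
    (ContinuousLinearMap.proj (R := ℝ) (φ := fun _ : Fin 4 => ℝ) (1 : Fin 4)).hasFDerivAt
  have g0 := (hφ (x 0)).hasDerivAt.comp_hasFDerivAt x h0
  have g1 := (hc (x 1)).hasDerivAt.comp_hasFDerivAt x h1
  have g := g0.mul g1
  unfold pd
  have e : (fun y : V 4 => φ (y 0) * c (y 1)) =
      (φ ∘ fun y : V 4 => y 0) * (c ∘ fun y : V 4 => y 1) := rfl
  rw [e, g.fderiv]
  simp

/-- the eigenfunction `ψ(x 0) cos (x 1)` -/
def uc (ψ : ℝ → ℝ) (x : V 4) : ℝ := ψ (x 0) * Real.cos (x 1)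

theorem pd0_uc (φ : ℝ → ℝ) (hφ : Differentiable ℝ φ) : pd 0 (uc φ) = uc (deriv φ) := by
  ext x
  unfold uc
  rw [pd_mul φ Real.cos hφ Real.differentiable_cos x 0]
  simp
  ring

theorem pd1_uc (φ : ℝ → ℝ) (hφ : Differentiable ℝ φ) :
    pd 1 (uc φ) = fun x => φ (x 0) * (-Real.sin (x 1)) := by
  ext x
  unfold uc
  rw [pd_mul φ Real.cos hφ Real.differentiable_cos x 1]
  simp

theorem pd11_uc (φ : ℝ → ℝ) (hφ : Differentiable ℝ φ) : ∀ x, pd 1 (pd 1 (uc φ)) x = -uc φ x := by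
  intro x
  rw [pd1_uc φ hφ, pd_mul φ (fun t => -Real.sin t) hφ Real.differentiable_sin.neg x 1]
  simp [uc]

theorem pd2_uc (φ : ℝ → ℝ) (hφ : Differentiable ℝ φ) : pd 2 (uc φ) = fun _ => 0 := by
  ext x
  unfold uc
  rw [pd_mul φ Real.cos hφ Real.differentiable_cos x 2]
  simp

theorem pd3_uc (φ : ℝ → ℝ) (hφ : Differentiable ℝ φ) : pd 3 (uc φ) = fun _ => 0 := by
  ext x
  unfold uc
  rw [pd_mul φ Real.cos hφ Real.differentiable_cos x 3]
  simp

theorem pd_const_zero (i : Fin 4) (x : V 4) : pd i (fun _ : V 4 => (0 : ℝ)) x = 0 := by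
  simp [pd]

theorem uc_sol (lam : ℝ) (ψ : ℝ → ℝ) (h : IsGround lam ψ) : Sol lam 0 (uc ψ) := by
  obtain ⟨hψ, _, hode, hl, hr⟩ := h
  have hd : Differentiable ℝ ψ := hψ.differentiable (by simp)
  have hψ' : ContDiff ℝ ∞ (deriv ψ) := by
    have h := contDiff_infty_iff_deriv.1 hψ
    exact h.2
  have hd' : Differentiable ℝ (deriv ψ) := hψ'.differentiable (by simp)
  refine ⟨?_, ?_, ?_, ?_⟩
  · unfold uc
    have a : ContDiff ℝ ∞ (fun x : V 4 => x 0) := contDiff_apply ℝ ℝ (0 : Fin 4)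
    have b : ContDiff ℝ ∞ (fun x : V 4 => x 1) := contDiff_apply ℝ ℝ (1 : Fin 4)
    exact (hψ.comp a).mul (Real.contDiff_cos.comp b)
  · intro x _ i
    unfold uc
    have e0 : (x + Pi.single i.succ (2 * Real.pi) : V 4) 0 = x 0 := by
      simp [(Fin.succ_ne_zero i).symm]
    rw [e0]
    congr 1
    by_cases hi : i.succ = 1
    · rw [hi]
      have : (x + Pi.single 1 (2 * Real.pi) : V 4) 1 = x 1 + 2 * Real.pi := by simp
      rw [this, Real.cos_add_two_pi]
    · have : (x + Pi.single i.succ (2 * Real.pi) : V 4) 1 = x 1 := by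
        simp [Pi.single_apply]
        exact fun h => hi h.symm
      rw [this]
  · intro x hx
    have hx' : x 0 ∈ Set.Icc (-1 : ℝ) 1 := abs_le.1 hx
    rw [pd0_uc ψ hd, pd0_uc _ hd', pd11_uc ψ hd, pd2_uc ψ hd, pd3_uc ψ hd, pd_const_zero,
      pd_const_zero]
    unfold uc
    rw [hode _ hx']
    ring
  · intro x hx
    rw [pd0_uc ψ hd]
    unfold uc
    rcases (abs_eq (zero_le_one)).1 hx with h | h
    · rw [h, hr]
      ring
    · rw [h, hl]
      ring

theorem NR_proof : NR := by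
  intro hU lam ψ hlam hψ H hrank
  have hg : ∀ u, Sol lam 0 u → Inv i2 u → ∀ x ∈ strip 3, u x = u ![x 0, 0, 0, 0] :=
    fun u hs hi => const_dir u (smooth_diff u hs.1) (H u hs hi)
  have hprof : ∀ v ∈ F lam 0 i2, Prof lam v := by
    intro v hv
    refine prof_span lam v _ ?_ hv
    rintro v ⟨u, ⟨hs, hi⟩, hvu⟩
    exact prof_gen lam u hs (H u hs hi) v hvu
  -- `A2 ≤ A1`
  have hle : F lam 0 i2 ≤ F lam 0 i1 := by
    apply Submodule.span_mono
    rintro v ⟨u, ⟨hs, hi⟩, hvu⟩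
    refine ⟨u, ⟨hs, ?_⟩, hvu⟩
    intro x hx
    have hx' : i1 x ∈ strip 3 := by
      have : |x 0| ≤ 1 := hx
      simpa [i1, strip] using this
    rw [hg u hs hi x hx, hg u hs hi _ hx']
    simp [i1]
  -- `A2 ≠ A1`
  have hlt : F lam 0 i2 < F lam 0 i1 := by
    refine lt_of_le_of_ne hle ?_
    intro heq
    have hmem : (fun x : strip 3 => uc ψ x) ∈ F lam 0 i1 := by
      apply Submodule.subset_span
      refine ⟨uc ψ, ⟨uc_sol lam ψ hψ, ?_⟩, fun x => rfl⟩
      intro x _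
      simp [uc, i1]
    rw [← heq] at hmem
    obtain ⟨w, _, _, _, hw⟩ := hprof _ hmem
    have h1 := hw ⟨![0, 0, 0, 0], by simp [strip]⟩
    have h2 := hw ⟨![0, Real.pi, 0, 0], by simp [strip]⟩
    simp only [uc, Matrix.cons_val_zero, Matrix.cons_val_one, Real.cos_zero, Real.cos_pi] at h1 h2
    have h3 := hψ.2.1 0 (by constructor <;> norm_num)
    linarith
  -- `A2` has dimension at most one
  have hp : (![-1, 0, 0, 0] : V 4) ∈ strip 3 := pt_mem (by constructor <;> norm_num)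
  let ev : F lam 0 i2 →ₗ[ℝ] ℝ :=
    (LinearMap.proj (R := ℝ) (φ := fun _ : strip 3 => ℝ) ⟨![-1, 0, 0, 0], hp⟩).comp
      (F lam 0 i2).subtype
  have hinj : Function.Injective ev := by
    rw [injective_iff_map_eq_zero]
    intro v hv
    have hv' : (v : strip 3 → ℝ) ⟨![-1, 0, 0, 0], hp⟩ = 0 := hv
    obtain ⟨w, hw, hw1, hw2, hw3⟩ := hprof _ v.2
    have hw0 : w (-1) = 0 := by
      rw [hw3] at hv'
      simpa using hv'
    have hq : Continuous (fun t => -(lam * q t)) := by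
      unfold q
      fun_prop
    have hz := hU (fun t => -(lam * q t)) w (-1) hq hw (by constructor <;> norm_num) hw1 hw0 hw2
    apply Subtype.ext
    ext x
    rw [hw3 x]
    exact hz _ (abs_le.1 x.2)
  have hr2 : Module.rank ℝ (F lam 0 i2) ≤ 1 := by
    have := LinearMap.rank_le_of_injective ev hinj
    simpa using this
  have hfin : Module.Finite ℝ (F lam 0 i1) := by
    rw [← Module.rank_lt_aleph0_iff, hrank]
    exact lt_of_le_of_lt hr2 Cardinal.one_lt_aleph0
  have h1 := Submodule.finrank_lt_finrank_of_lt hlt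
  have h2 : Module.finrank ℝ (F lam 0 i1) = Module.finrank ℝ (F lam 0 i2) := by
    unfold Module.finrank
    rw [hrank]
  omega

end

end Pool.Agent.W261.ST
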