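import Pool.Agent.W8.ST.Stm

set_option autoImplicit false

/-!
Project ST, part Uni: uniqueness for a linear equation of second order.
-/

open Set

namespace Pool.Agent.W261.ST

open Pool.Agent.W8.ST

theorem Uni_proof : Uni := by
  intro f w s hf hw hs hode hws hws' t ht
  have d1 : Differentiable ℝ w := hw.differentiable (by norm_num)
  have c1 : ContDiff ℝ 1 (deriv w) := by
    have h := (contDiff_succ_iff_deriv (n := 1)).1 (by simpa [one_add_one_eq_two] using hw)
    exact h.2.2
  have d2 : Differentiable ℝ (deriv w) := c1.differentiable (by norm_num)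
  obtain ⟨M, hM⟩ := (isCompact_Icc (a := (-1 : ℝ)) (b := 1)).exists_bound_of_continuousOn
    hf.continuousOn
  have hM0 : 0 ≤ M := le_trans (norm_nonneg _) (hM s hs)
  set E : ℝ → ℝ := fun t => (w t) ^ 2 + (deriv w t) ^ 2 with hE
  have hEd : ∀ t, HasDerivAt E (2 * w t * deriv w t + 2 * deriv w t * deriv (deriv w) t) t := by
    intro t
    have h1 := ((d1 t).hasDerivAt.pow 2).add ((d2 t).hasDerivAt.pow 2)
    refine h1.congr_deriv ?_
    norm_num
  have hbound : ∀ t ∈ Icc (-1 : ℝ) 1,
      |2 * w t * deriv w t + 2 * deriv w t * deriv (deriv w) t| ≤ (1 + M) * E t := by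
    intro t ht
    rw [hode t ht]
    have h1 : 2 * w t * deriv w t + 2 * deriv w t * (f t * w t) =
        (1 + f t) * (2 * w t * deriv w t) := by ring
    rw [h1, abs_mul]
    have h2 : |1 + f t| ≤ 1 + M := by
      have := hM t ht
      rw [Real.norm_eq_abs] at this
      calc |1 + f t| ≤ |(1 : ℝ)| + |f t| := abs_add_le _ _
        _ ≤ 1 + M := by rw [abs_one]; linarith
    have h3 : |2 * w t * deriv w t| ≤ E t := by
      rw [hE, abs_le]
      constructor
      · nlinarith [sq_nonneg (w t + deriv w t)]
      · nlinarith [sq_nonneg (w t - deriv w t)]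
    exact mul_le_mul h2 h3 (abs_nonneg _) (by linarith)
  have hEs : E s = 0 := by
    rw [hE]
    simp [hws, hws']
  have key : E t ≤ 0 := by
    rcases le_total s t with hst | hts
    · -- forward
      have hG : AntitoneOn (fun t => E t * Real.exp (-(1 + M) * t)) (Icc (-1 : ℝ) 1) := by
        apply antitoneOn_of_deriv_nonpos (convex_Icc _ _)
        · intro x _
          exact ((hEd x).continuousAt.mul (by fun_prop)).continuousWithinAt
        · intro x _
          exact ((hEd x).differentiableAt.mul (by fun_prop)).differentiableWithinAt
        · intro x hx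
          rw [interior_Icc] at hx
          have hx' : x ∈ Icc (-1 : ℝ) 1 := ⟨hx.1.le, hx.2.le⟩
          have he : HasDerivAt (fun t : ℝ => Real.exp (-(1 + M) * t))
              (Real.exp (-(1 + M) * x) * (-(1 + M))) x := by
            have h := ((hasDerivAt_id' x).const_mul (-(1 + M))).exp
            simpa using h
          have hd := ((hEd x).mul he).deriv
          change deriv (fun t => E t * Real.exp (-(1 + M) * t)) x = _ at hd
          rw [hd]
          have h1 := (abs_le.1 (hbound x hx')).2
          have h2 := Real.exp_pos (-(1 + M) * x)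
          have h3 : (2 * w x * deriv w x + 2 * deriv w x * deriv (deriv w) x) *
              Real.exp (-(1 + M) * x) + E x * (Real.exp (-(1 + M) * x) * (-(1 + M))) =
              -(Real.exp (-(1 + M) * x) * ((1 + M) * E x -
                (2 * w x * deriv w x + 2 * deriv w x * deriv (deriv w) x))) := by ring
          rw [h3]
          exact neg_nonpos.2 (mul_nonneg h2.le (by linarith))
      have h1 := hG hs ht hst
      simp only [hEs, zero_mul] at h1
      have h2 := Real.exp_pos (-(1 + M) * t)
      by_contra h3
      push Not at h3
      have := mul_pos h3 h2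
      linarith
    · have hG : MonotoneOn (fun t => E t * Real.exp ((1 + M) * t)) (Icc (-1 : ℝ) 1) := by
        apply monotoneOn_of_deriv_nonneg (convex_Icc _ _)
        · intro x _
          exact ((hEd x).continuousAt.mul (by fun_prop)).continuousWithinAt
        · intro x _
          exact ((hEd x).differentiableAt.mul (by fun_prop)).differentiableWithinAt
        · intro x hx
          rw [interior_Icc] at hx
          have hx' : x ∈ Icc (-1 : ℝ) 1 := ⟨hx.1.le, hx.2.le⟩
          have he : HasDerivAt (fun t : ℝ => Real.exp ((1 + M) * t))
              (Real.exp ((1 + M) * x) * (1 + M)) x := by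
            have h := ((hasDerivAt_id' x).const_mul (1 + M)).exp
            simpa using h
          have hd := ((hEd x).mul he).deriv
          change deriv (fun t => E t * Real.exp ((1 + M) * t)) x = _ at hd
          rw [hd]
          have h1 := (abs_le.1 (hbound x hx')).1
          have h2 := Real.exp_pos ((1 + M) * x)
          have h3 : (2 * w x * deriv w x + 2 * deriv w x * deriv (deriv w) x) *
              Real.exp ((1 + M) * x) + E x * (Real.exp ((1 + M) * x) * (1 + M)) =
              Real.exp ((1 + M) * x) * ((1 + M) * E x +
                (2 * w x * deriv w x + 2 * deriv w x * deriv (deriv w) x)) := by ring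
          rw [h3]
          exact mul_nonneg h2.le (by linarith)
      have h1 := hG ht hs hts
      simp only [hEs, zero_mul] at h1
      have h2 := Real.exp_pos ((1 + M) * t)
      by_contra h3
      push Not at h3
      have := mul_pos h3 h2
      linarith
  have h4 : (w t) ^ 2 ≤ 0 := by
    have : E t = (w t) ^ 2 + (deriv w t) ^ 2 := rfl
    nlinarith [sq_nonneg (deriv w t)]
  exact pow_eq_zero_iff (two_ne_zero) |>.1 (le_antisymm h4 (sq_nonneg _))

end Pool.Agent.W261.ST
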